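import Mathlib
import Pool.Agent.H220.K.Stm

set_option autoImplicit false

open Set Filter Topology Metric
open scoped ContDiff ComplexConjugate

namespace Pool.Agent.H653.K

open Pool.Agent.H220.K

theorem D2_mono (P : ℕ → ℂ) (hP : ∀ j, ‖P j‖ ≤ 1) (y : ℂ × ℂ)
    (hy : 2 ≤ ‖y.1‖ ^ 2 + ‖y.2‖ ^ 2) (t : ℝ) (ht : 0 ≤ t) (j : ℕ) :
    D2 P j y ≤ D2 P j (y + t • y) := by
  obtain ⟨a, b⟩ := y
  have hp := hP j
  have hp2 : ‖P j‖ ^ 2 ≤ 1 := by
    have := norm_nonneg (P j)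
    nlinarith
  simp only [D2, Complex.sq_norm, Complex.normSq_apply] at *
  simp only [Prod.smul_mk, Prod.mk_add_mk, Complex.sub_re, Complex.sub_im, Complex.add_re,
    Complex.add_im, Complex.conj_re, Complex.conj_im, Complex.real_smul, Complex.mul_re,
    Complex.mul_im, Complex.ofReal_re, Complex.ofReal_im, zero_mul, sub_zero, add_zero]
  set p := (P j).re
  set q := (P j).im
  set a1 := a.re
  set a2 := a.im
  set b1 := b.re
  set b2 := b.im
  have hs : (a1 + b1) * p + (a2 - b2) * q ≤ a1 * a1 + a2 * a2 + (b1 * b1 + b2 * b2) := by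
    nlinarith [sq_nonneg ((a1 + b1) / 2 - p), sq_nonneg ((a2 - b2) / 2 - q),
      sq_nonneg (a1 - b1), sq_nonneg (a2 + b2)]
  have h1 : 0 ≤ t * (a1 * a1 + a2 * a2 + (b1 * b1 + b2 * b2) -
      ((a1 + b1) * p + (a2 - b2) * q)) := mul_nonneg ht (by linarith)
  have h2 : 0 ≤ t * t * (a1 * a1 + a2 * a2 + (b1 * b1 + b2 * b2)) := by positivity
  nlinarith [h1, h2]

theorem D2_bounds (P : ℕ → ℂ) (hP : ∀ j, ‖P j‖ ≤ 1) (y : ℂ × ℂ) :
    ∃ C : ℝ, ∀ j, D2 P j y ≤ C := by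
  refine ⟨(‖y.1‖ + 1) ^ 2 + (‖y.2‖ + 1) ^ 2, fun j => ?_⟩
  have h1 : ‖y.1 - P j‖ ≤ ‖y.1‖ + 1 := (norm_sub_le _ _).trans (by linarith [hP j])
  have h2 : ‖y.2 - conj (P j)‖ ≤ ‖y.2‖ + 1 := (norm_sub_le _ _).trans (by
    rw [RCLike.norm_conj]; linarith [hP j])
  unfold D2
  gcongr

theorem D2_lower (P : ℕ → ℂ) (hP : ∀ j, ‖P j‖ ≤ 1) (y : ℂ × ℂ) (hy : y ∉ Pi0) :
    ∃ c : ℝ, 0 < c ∧ ∀ j, c ≤ D2 P j y := by
  have hc : IsCompact (closedBall (0 : ℂ) 1) := isCompact_closedBall _ _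
  have hcont : ContinuousOn (fun p : ℂ => ‖y.1 - p‖ ^ 2 + ‖y.2 - conj p‖ ^ 2)
      (closedBall (0 : ℂ) 1) := by fun_prop
  obtain ⟨p, hp, hmin⟩ := hc.exists_isMinOn ⟨0, by simp⟩ hcont
  refine ⟨‖y.1 - p‖ ^ 2 + ‖y.2 - conj p‖ ^ 2, ?_, fun j => ?_⟩
  · by_contra hcon
    have h1 : ‖y.1 - p‖ ^ 2 = 0 := by
      have := sq_nonneg ‖y.1 - p‖
      have := sq_nonneg ‖y.2 - conj p‖
      linarith
    have h2 : ‖y.2 - conj p‖ ^ 2 = 0 := by
      have := sq_nonneg ‖y.1 - p‖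
      have := sq_nonneg ‖y.2 - conj p‖
      linarith
    have h1' : y.1 = p := by
      rw [sq_eq_zero_iff, norm_eq_zero, sub_eq_zero] at h1
      exact h1
    have h2' : y.2 = conj p := by
      rw [sq_eq_zero_iff, norm_eq_zero, sub_eq_zero] at h2
      exact h2
    apply hy
    refine ⟨by rw [h2', h1'], ?_⟩
    rw [h1']
    simpa using hp
  · have := hmin (show P j ∈ closedBall (0 : ℂ) 1 by simpa using hP j)
    simpa [D2] using this

theorem summ (P : ℕ → ℂ) (y : ℂ × ℂ) (c C : ℝ) (hc : 0 < c) (h1 : ∀ j, c ≤ D2 P j y)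
    (h2 : ∀ j, D2 P j y ≤ C) :
    Summable fun j : ℕ => (1 / 2 : ℝ) ^ j * (1 / 2 * Real.log (D2 P j y)) := by
  have hg : Summable fun j : ℕ => (1 / 2 : ℝ) ^ j * (|Real.log c| + |Real.log C|) :=
    (summable_geometric_of_lt_one (by norm_num) (by norm_num)).mul_right _
  refine Summable.of_norm_bounded hg fun j => ?_
  rw [norm_mul, norm_mul, norm_pow]
  have hl : |Real.log (D2 P j y)| ≤ |Real.log c| + |Real.log C| := by
    have e1 : Real.log c ≤ Real.log (D2 P j y) := Real.log_le_log hc (h1 j)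
    have e2 : Real.log (D2 P j y) ≤ Real.log C := Real.log_le_log (hc.trans_le (h1 j)) (h2 j)
    rw [abs_le]
    constructor
    · have := neg_abs_le (Real.log c)
      have := abs_nonneg (Real.log C)
      linarith
    · have := le_abs_self (Real.log C)
      have := abs_nonneg (Real.log c)
      linarith
  simp only [Real.norm_eq_abs]
  rw [abs_of_pos (by norm_num : (0 : ℝ) < 1 / 2)]
  have h0 := abs_nonneg (Real.log (D2 P j y))
  gcongr
  linarith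

theorem g0_mono (P : ℕ → ℂ) (hP : ∀ j, ‖P j‖ ≤ 1) (y : ℂ × ℂ) (hy : y ∉ Pi0)
    (hy2 : 2 ≤ ‖y.1‖ ^ 2 + ‖y.2‖ ^ 2) (t : ℝ) (ht : 0 ≤ t) :
    g0 P y ≤ g0 P (y + t • y) := by
  obtain ⟨c, hc, hcl⟩ := D2_lower P hP y hy
  obtain ⟨C, hC⟩ := D2_bounds P hP y
  obtain ⟨C', hC'⟩ := D2_bounds P hP (y + t • y)
  have hm := D2_mono P hP y hy2 t ht
  unfold g0
  refine Summable.tsum_le_tsum (fun j => ?_) (summ P y c C hc hcl hC)
    (summ P (y + t • y) c C' hc (fun j => (hcl j).trans (hm j)) hC')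
  have : Real.log (D2 P j y) ≤ Real.log (D2 P j (y + t • y)) :=
    Real.log_le_log (hc.trans_le (hcl j)) (hm j)
  gcongr

theorem s_rad : S_rad := by
  intro P hP y hy hy2 hd
  have h1 : HasDerivAt (fun t : ℝ => y + t • y) y 0 := by
    have := ((hasDerivAt_id (0 : ℝ)).smul_const y).const_add y
    simpa using this
  have hd' : HasFDerivAt (g0 P) (fderiv ℝ (g0 P) y) (y + (0 : ℝ) • y) := by
    simpa using hd.hasFDerivAt
  have h2 : HasDerivAt (fun t : ℝ => g0 P (y + t • y)) (fderiv ℝ (g0 P) y y) 0 := by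
    have h := HasFDerivAt.comp_hasDerivAt (l := g0 P) (f := fun t : ℝ => y + t • y) (0 : ℝ) hd' h1
    exact h
  have h3 := (h2.hasDerivWithinAt (s := Ioi 0))
  rw [hasDerivWithinAt_iff_tendsto_slope' (by simp)] at h3
  refine ge_of_tendsto h3 ?_
  filter_upwards [self_mem_nhdsWithin] with t ht
  rw [slope_def_field]
  have := g0_mono P hP y hy hy2 t (le_of_lt ht)
  apply div_nonneg
  · simpa using this
  · simpa using le_of_lt ht

end Pool.Agent.H653.K
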